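import Mathlib

set_option autoImplicit false

/-! Finite Euclidean Ramsey theory: basic notions (squared-distance matrices), closure under
restriction, products and sums, two-point sets. -/

namespace Pool.Agent.P8H24.ER

/-- `D` is the squared-distance function of a finite configuration in a Euclidean space. -/
def EucD {B : Type} (D : B → B → ℝ) : Prop :=
  ∃ (n : ℕ) (w : B → EuclideanSpace ℝ (Fin n)), ∀ b b', D b b' = ‖w b - w b'‖ ^ 2

theorem EucD.of {B : Type} {E : Type} [NormedAddCommGroup E] [InnerProductSpace ℝ E]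
    [FiniteDimensional ℝ E] (w : B → E) : EucD (fun b b' => ‖w b - w b'‖ ^ 2) := by
  refine ⟨Module.finrank ℝ E, fun b => (stdOrthonormalBasis ℝ E).repr (w b), fun b b' => ?_⟩
  rw [← map_sub, LinearIsometryEquiv.norm_map]

/-- every `r`-colouring of some finite Euclidean configuration contains a monochromatic copy of
the configuration with squared distances `D`. -/
def Arr {A : Type} (r : ℕ) (D : A → A → ℝ) : Prop :=
  ∃ (B : Type) (_ : Fintype B) (DB : B → B → ℝ), EucD DB ∧
    ∀ c : B → Fin r, ∃ f : A → B, (∀ a a', DB (f a) (f a') = D a a') ∧ ∀ a a', c (f a) = c (f a')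

theorem Arr.comap {A A' : Type} {r : ℕ} {D : A → A → ℝ} (h : Arr r D) (g : A' → A) :
    Arr r (fun a a' => D (g a) (g a')) := by
  obtain ⟨B, hB, DB, hE, hc⟩ := h
  refine ⟨B, hB, DB, hE, fun c => ?_⟩
  obtain ⟨f, hf, hm⟩ := hc c
  exact ⟨fun a => f (g a), fun a a' => hf _ _, fun a a' => hm _ _⟩

theorem EucD.prod {B C : Type} {D1 : B → B → ℝ} {D2 : C → C → ℝ} (h1 : EucD D1) (h2 : EucD D2) :
    EucD (fun x y : B × C => D1 x.1 y.1 + D2 x.2 y.2) := by
  obtain ⟨n, w, hw⟩ := h1
  obtain ⟨m, v, hv⟩ := h2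
  have h := EucD.of (B := B × C)
    (E := WithLp 2 (EuclideanSpace ℝ (Fin n) × EuclideanSpace ℝ (Fin m)))
    (fun x => WithLp.toLp 2 (w x.1, v x.2))
  convert h using 3 with x y
  rw [hw, hv, ← WithLp.toLp_sub, WithLp.prod_norm_sq_eq_of_L2]
  simp

/-- the product theorem -/
theorem Arr.prod {A C : Type} {D1 : A → A → ℝ} {D2 : C → C → ℝ}
    (h1 : ∀ r, Arr r D1) (h2 : ∀ r, Arr r D2) (r : ℕ) :
    Arr r (fun x y : A × C => D1 x.1 y.1 + D2 x.2 y.2) := by
  classical
  obtain ⟨B1, hB1, E1, he1, hc1⟩ := h1 r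
  obtain ⟨B2, hB2, E2, he2, hc2⟩ := h2 (Fintype.card (B1 → Fin r))
  refine ⟨B1 × B2, inferInstance, _, he1.prod he2, fun c => ?_⟩
  obtain ⟨f2, hf2, hm2⟩ := hc2 (fun b => Fintype.equivFin (B1 → Fin r) (fun b1 => c (b1, b)))
  have hm2' : ∀ x y : C, ∀ b1, c (b1, f2 x) = c (b1, f2 y) := by
    intro x y b1
    have := hm2 x y
    simp only [EmbeddingLike.apply_eq_iff_eq] at this
    exact congrFun this b1
  rcases isEmpty_or_nonempty C with hC | ⟨⟨x0⟩⟩
  · exact ⟨fun x => (hC.false x.2).elim, fun x => (hC.false x.2).elim,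
      fun x => (hC.false x.2).elim⟩
  · obtain ⟨f1, hf1, hm1⟩ := hc1 (fun b1 => c (b1, f2 x0))
    refine ⟨fun x => (f1 x.1, f2 x.2), fun x y => ?_, fun x y => ?_⟩
    · simp only [hf1, hf2]
    · simp only
      rw [hm2' x.2 x0, hm2' y.2 x0]
      exact hm1 x.1 y.1

theorem Arr.add {A : Type} {D1 D2 : A → A → ℝ}
    (h1 : ∀ r, Arr r D1) (h2 : ∀ r, Arr r D2) (r : ℕ) :
    Arr r (fun x y : A => D1 x y + D2 x y) :=
  (Arr.prod h1 h2 r).comap (fun a : A => (a, a))

theorem Arr.zero {A : Type} (r : ℕ) : Arr r (fun _ _ : A => (0 : ℝ)) := by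
  refine ⟨Unit, inferInstance, fun _ _ => 0, ⟨0, fun _ => 0, by simp⟩, fun c => ?_⟩
  exact ⟨fun _ => (), fun _ _ => rfl, fun _ _ => rfl⟩

theorem Arr.sum {A ι : Type} (s : Finset ι) {D : ι → A → A → ℝ}
    (h : ∀ i ∈ s, ∀ r, Arr r (D i)) (r : ℕ) :
    Arr r (fun x y : A => ∑ i ∈ s, D i x y) := by
  classical
  induction s using Finset.induction_on generalizing r with
  | empty => simpa using Arr.zero r
  | insert i s hi ih =>
    have h1 := Arr.add (h i (Finset.mem_insert_self i s))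
      (fun r => ih (fun j hj => h j (Finset.mem_insert_of_mem hj)) r) r
    convert h1 using 3
    rw [Finset.sum_insert hi]

/-- two-point sets -/
theorem Arr.two {A : Type} (J : A → Prop) [DecidablePred J] {β : ℝ} (hβ : 0 ≤ β) (r : ℕ) :
    Arr r (fun a a' : A => if (J a ↔ J a') then 0 else β) := by
  classical
  have h := EucD.of (B := Fin (r + 1)) (E := EuclideanSpace ℝ (Fin (r + 1)))
    (fun b => EuclideanSpace.single b (√(β / 2)))
  refine ⟨Fin (r + 1), inferInstance, _, h, fun c => ?_⟩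
  obtain ⟨x, y, hxy, hc⟩ := Fintype.exists_ne_map_eq_of_card_lt c (by simp)
  have hd : ∀ x y : Fin (r + 1), x ≠ y →
      ‖EuclideanSpace.single x (√(β / 2)) - EuclideanSpace.single y (√(β / 2))‖ ^ 2 = β := by
    intro x y hxy
    have h1 : inner ℝ (EuclideanSpace.single x (√(β / 2)) : EuclideanSpace ℝ (Fin (r+1)))
        (EuclideanSpace.single y (√(β / 2))) = 0 := by
      rw [EuclideanSpace.inner_single_left]
      simp [hxy]
    rw [@norm_sub_sq ℝ, h1]
    simp only [PiLp.norm_single, Real.norm_eq_abs, sq_abs]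
    rw [Real.sq_sqrt (by positivity)]
    simp
  refine ⟨fun a => if J a then x else y, fun a a' => ?_, fun a a' => ?_⟩
  · generalize √(β / 2) = s at hd
    by_cases h1 : J a <;> by_cases h2 : J a' <;> simp [h1, h2, hd x y hxy, hd y x hxy.symm]
  · by_cases h1 : J a <;> by_cases h2 : J a' <;> simp [h1, h2, hc]

end Pool.Agent.P8H24.ER
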