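import Mathlib

set_option autoImplicit false

/-! Extending an isometric copy of a finite configuration to the ambient space. -/

namespace Pool.Agent.P8H24.ER

theorem gram_eq {I V W : Type} [NormedAddCommGroup V] [InnerProductSpace ℝ V]
    [NormedAddCommGroup W] [InnerProductSpace ℝ W] (P : I → V) (Q : I → W) (i0 : I)
    (h : ∀ i j, ‖P i - P j‖ = ‖Q i - Q j‖) (i j : I) :
    inner ℝ (P i - P i0) (P j - P i0) = inner ℝ (Q i - Q i0) (Q j - Q i0) := by
  have e1 : inner ℝ (P i - P i0) (P j - P i0)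
      = (‖P i - P i0‖ ^ 2 + ‖P j - P i0‖ ^ 2 - ‖P i - P j‖ ^ 2) / 2 := by
    have : P i - P j = (P i - P i0) - (P j - P i0) := by abel
    rw [this, @norm_sub_sq ℝ V _ _ _ (P i - P i0) (P j - P i0)]
    simp only [RCLike.re_to_real]
    ring
  have e2 : inner ℝ (Q i - Q i0) (Q j - Q i0)
      = (‖Q i - Q i0‖ ^ 2 + ‖Q j - Q i0‖ ^ 2 - ‖Q i - Q j‖ ^ 2) / 2 := by
    have : Q i - Q j = (Q i - Q i0) - (Q j - Q i0) := by abel
    rw [this, @norm_sub_sq ℝ W _ _ _ (Q i - Q i0) (Q j - Q i0)]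
    simp only [RCLike.re_to_real]
    ring
  rw [e1, e2, h, h, h]

theorem ext_sub {I V W : Type} [Fintype I] [NormedAddCommGroup V] [InnerProductSpace ℝ V]
    [NormedAddCommGroup W] [InnerProductSpace ℝ W] (P : I → V) (Q : I → W)
    (h : ∀ i j, inner ℝ (P i) (P j) = inner ℝ (Q i) (Q j)) :
    ∃ (S : Submodule ℝ V) (L0 : S →ₗ[ℝ] W), (∀ s, ‖L0 s‖ = ‖s‖) ∧
      ∃ hmem : ∀ i, P i ∈ S, ∀ i, L0 ⟨P i, hmem i⟩ = Q i := by
  classical
  obtain ⟨Pm, hPm⟩ : ∃ Pm : (I → ℝ) →ₗ[ℝ] V, Pm = Fintype.linearCombination ℝ P := ⟨_, rfl⟩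
  obtain ⟨Qm, hQm⟩ : ∃ Qm : (I → ℝ) →ₗ[ℝ] W, Qm = Fintype.linearCombination ℝ Q := ⟨_, rfl⟩
  have hPs : ∀ i, Pm (Pi.single i 1) = P i := by
    intro i
    rw [hPm, Fintype.linearCombination_apply_single, one_smul]
  have hQs : ∀ i, Qm (Pi.single i 1) = Q i := by
    intro i
    rw [hQm, Fintype.linearCombination_apply_single, one_smul]
  have hnorm : ∀ c, ‖Qm c‖ = ‖Pm c‖ := by
    intro c
    have : ‖Qm c‖ ^ 2 = ‖Pm c‖ ^ 2 := by
      rw [← @real_inner_self_eq_norm_sq W, ← @real_inner_self_eq_norm_sq V]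
      simp only [hPm, hQm, Fintype.linearCombination_apply, sum_inner, inner_sum, inner_smul_left,
        inner_smul_right, h]
    exact (sq_eq_sq₀ (norm_nonneg _) (norm_nonneg _)).1 this
  obtain ⟨g, hg⟩ := LinearMap.exists_rightInverse_of_surjective Pm.rangeRestrict
    (LinearMap.range_eq_top.2 Pm.surjective_rangeRestrict)
  have hg' : ∀ s : LinearMap.range Pm, Pm (g s) = s := by
    intro s
    have := congrArg (fun f => (f s : LinearMap.range Pm)) hg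
    simp only [LinearMap.comp_apply, LinearMap.id_apply] at this
    exact congrArg Subtype.val this
  have hmem : ∀ i, P i ∈ LinearMap.range Pm := fun i => ⟨Pi.single i 1, hPs i⟩
  refine ⟨LinearMap.range Pm, Qm ∘ₗ g, fun s => ?_, hmem, fun i => ?_⟩
  · rw [LinearMap.comp_apply, hnorm, hg']
    rfl
  · have h1 : Qm (g ⟨P i, hmem i⟩ - Pi.single i 1) = 0 := by
      rw [← norm_eq_zero, hnorm, norm_eq_zero, map_sub, hg', hPs, sub_self]
    rw [map_sub, hQs, sub_eq_zero] at h1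
    exact h1

/-- linear version -/
theorem ext_lin {I V W : Type} [Fintype I] [NormedAddCommGroup V] [InnerProductSpace ℝ V]
    [FiniteDimensional ℝ V] [NormedAddCommGroup W] [InnerProductSpace ℝ W] (P : I → V) (Q : I → W)
    (h : ∀ i j, inner ℝ (P i) (P j) = inner ℝ (Q i) (Q j)) :
    ∃ L : V →ₗ[ℝ] WithLp 2 (W × V), (∀ x, ‖L x‖ = ‖x‖) ∧ ∀ i, L (P i) = WithLp.toLp 2 (Q i, 0) := by
  classical
  obtain ⟨S, L0, hL0n, hmem, hL0P⟩ := ext_sub P Q h
  let L : V →ₗ[ℝ] WithLp 2 (W × V) :=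
    (WithLp.linearEquiv 2 ℝ (W × V)).symm.toLinearMap ∘ₗ
      (LinearMap.prod (L0 ∘ₗ S.orthogonalProjectionOnto.toLinearMap)
        (Sᗮ.subtype ∘ₗ Sᗮ.orthogonalProjectionOnto.toLinearMap))
  have hLx : ∀ x, L x = WithLp.toLp 2 (L0 (S.orthogonalProjectionOnto x),
      ((Sᗮ.orthogonalProjectionOnto x : Sᗮ) : V)) := fun x => rfl
  refine ⟨L, fun x => ?_, fun i => ?_⟩
  · have : ‖L x‖ ^ 2 = ‖x‖ ^ 2 := by
      rw [hLx, WithLp.prod_norm_sq_eq_of_L2, Submodule.norm_sq_eq_add_norm_sq_projection x S]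
      change ‖L0 (S.orthogonalProjectionOnto x)‖ ^ 2
        + ‖((Sᗮ.orthogonalProjectionOnto x : Sᗮ) : V)‖ ^ 2 = _
      rw [hL0n]
      rfl
    exact (sq_eq_sq₀ (norm_nonneg _) (norm_nonneg _)).1 this
  · rw [hLx]
    have h1 : S.orthogonalProjectionOnto (P i) = ⟨P i, hmem i⟩ := by
      have := Submodule.orthogonalProjectionOnto_mem_subspace_eq_self (K := S) ⟨P i, hmem i⟩
      exact this
    have h2 : Sᗮ.orthogonalProjectionOnto (P i) = 0 := by
      rw [Submodule.orthogonalProjectionOnto_eq_zero_iff, Submodule.orthogonal_orthogonal]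
      exact hmem i
    rw [h1, h2, hL0P]
    rfl

/-- affine version -/
theorem ext_iso {I V W : Type} [Fintype I] [NormedAddCommGroup V] [InnerProductSpace ℝ V]
    [FiniteDimensional ℝ V] [NormedAddCommGroup W] [InnerProductSpace ℝ W] (P : I → V) (Q : I → W)
    (h : ∀ i j, ‖P i - P j‖ = ‖Q i - Q j‖) :
    ∃ Φ : V → WithLp 2 (W × V), (∀ x y, ‖Φ x - Φ y‖ = ‖x - y‖) ∧
      ∀ i, Φ (P i) = WithLp.toLp 2 (Q i, 0) := by
  classical
  rcases isEmpty_or_nonempty I with hI | ⟨⟨i0⟩⟩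
  · refine ⟨fun v => WithLp.toLp 2 (0, v), fun x y => ?_, fun i => (hI.false i).elim⟩
    rw [← WithLp.toLp_sub]
    simp
  · obtain ⟨L, hL, hLP⟩ := ext_lin (fun i => P i - P i0) (fun i => Q i - Q i0)
      (gram_eq P Q i0 h)
    refine ⟨fun v => L (v - P i0) + WithLp.toLp 2 (Q i0, 0), fun x y => ?_, fun i => ?_⟩
    · rw [add_sub_add_right_eq_sub, ← map_sub, hL]
      congr 1
      abel
    · simp only
      rw [hLP, ← WithLp.toLp_add]
      simp

end Pool.Agent.P8H24.ER
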