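import Pool.Agent.P8H24.ERMain

set_option autoImplicit false

/-! Compactness and the statement for subsets of Euclidean spaces. -/

namespace Pool.Agent.P8H24.ER

theorem compact_arr {A : Type} [Fintype A] {d N r : ℕ} (x : A → EuclideanSpace ℝ (Fin d))
    (h : ∀ c : EuclideanSpace ℝ (Fin N) → Fin r, ∃ g : A → EuclideanSpace ℝ (Fin N),
      (∀ a b, ‖g a - g b‖ = ‖x a - x b‖) ∧ ∀ a b, c (g a) = c (g b)) :
    Arr r (fun a b => ‖x a - x b‖ ^ 2) := by
  classical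
  rcases Nat.eq_zero_or_pos r with rfl | hr
  · exact Arr.zero_colours _
  let G : Type := {g : A → EuclideanSpace ℝ (Fin N) // ∀ a b, ‖g a - g b‖ = ‖x a - x b‖}
  let U : G → Set (EuclideanSpace ℝ (Fin N) → Fin r) := fun g => {c | ∀ a b, c (g.1 a) = c (g.1 b)}
  have hopen : ∀ g, IsOpen (U g) := by
    intro g
    have : U g = ⋂ a, ⋂ b, {c | c (g.1 a) = c (g.1 b)} := by
      ext c; simp [U]
    rw [this]
    apply isOpen_iInter_of_finite
    intro a
    apply isOpen_iInter_of_finite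
    intro b
    have h1 : Continuous fun c : EuclideanSpace ℝ (Fin N) → Fin r => (c (g.1 a), c (g.1 b)) := by
      fun_prop
    exact (isOpen_discrete {q : Fin r × Fin r | q.1 = q.2}).preimage h1
  obtain ⟨t, ht⟩ := isCompact_univ.elim_finite_subcover U hopen (by
    intro c _
    obtain ⟨g, hg1, hg2⟩ := h c
    exact Set.mem_iUnion.2 ⟨⟨g, hg1⟩, hg2⟩)
  let S : Finset (EuclideanSpace ℝ (Fin N)) :=
    (t ×ˢ (Finset.univ : Finset A)).image (fun q => q.1.1 q.2)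
  refine ⟨S, inferInstance, fun b b' => ‖b.1 - b'.1‖ ^ 2, ⟨N, fun b => b.1, fun _ _ => rfl⟩,
    fun c => ?_⟩
  have hc := ht (Set.mem_univ (fun e => if he : e ∈ S then c ⟨e, he⟩ else ⟨0, hr⟩))
  simp only [Set.mem_iUnion] at hc
  obtain ⟨g, hg, hgc⟩ := hc
  have hS : ∀ a, g.1 a ∈ S := fun a =>
    Finset.mem_image.2 ⟨(g, a), Finset.mem_product.2 ⟨hg, Finset.mem_univ a⟩, rfl⟩
  refine ⟨fun a => ⟨g.1 a, hS a⟩, fun a b => ?_, fun a b => ?_⟩
  · simp only
    rw [g.2]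
  · have := hgc a b
    simp only [dif_pos (hS _)] at this
    exact this

theorem final (d : ℕ) (X : Set (EuclideanSpace ℝ (Fin d))) (z : EuclideanSpace ℝ (Fin (d + 1)))
    (hfin : X.Finite)
    (hX : ∀ r : ℕ, ∃ N : ℕ, ∀ c : EuclideanSpace ℝ (Fin N) → Fin r,
      ∃ g : X → EuclideanSpace ℝ (Fin N), Isometry g ∧ ∀ x y : X, c (g x) = c (g y))
    (hz : z (Fin.last d) ≠ 0) (r : ℕ) :
    ∃ N : ℕ, ∀ c : EuclideanSpace ℝ (Fin N) → Fin r,
        ∃ g : ({y : EuclideanSpace ℝ (Fin (d + 1)) |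
                  y (Fin.last d) = 0 ∧ ∃ x ∈ X, ∀ i : Fin d, y (Fin.castSucc i) = x i}
                ∪ {z} : Set (EuclideanSpace ℝ (Fin (d + 1)))) → EuclideanSpace ℝ (Fin N),
          Isometry g ∧ ∀ x y, c (g x) = c (g y) := by
  classical
  have hA : Fintype X := hfin.fintype
  have hX' : ∀ r, Arr r (fun a b : X => ‖a.1 - b.1‖ ^ 2) := by
    intro r
    obtain ⟨N, hN⟩ := hX r
    apply compact_arr (fun a : X => a.1) (N := N)
    intro c
    obtain ⟨g, hg, hm⟩ := hN c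
    refine ⟨g, fun a b => ?_, hm⟩
    rw [← dist_eq_norm, hg.dist_eq, Subtype.dist_eq, dist_eq_norm]
  let ψ : EuclideanSpace ℝ (Fin (d + 1)) → WithLp 2 (EuclideanSpace ℝ (Fin d) × ℝ) :=
    fun v => WithLp.toLp 2 (WithLp.toLp 2 (fun i => v (Fin.castSucc i)), v (Fin.last d))
  have hψ : ∀ u v, ‖ψ u - ψ v‖ ^ 2 = ‖u - v‖ ^ 2 := by
    intro u v
    simp only [ψ]
    rw [norm_toLp_sub, ← WithLp.toLp_sub, EuclideanSpace.norm_sq_eq, EuclideanSpace.norm_sq_eq,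
      Fin.sum_univ_castSucc]
    simp
  obtain ⟨B, hB, DB, ⟨N, w, hw⟩, hc⟩ := main (fun a : X => a.1)
    (WithLp.toLp 2 (fun i => z (Fin.castSucc i))) (z (Fin.last d)) hz hX'
    (fun o => o.elim (ψ z) (fun a => WithLp.toLp 2 (a.1, 0))) (fun a => rfl) rfl r
  refine ⟨N, fun c => ?_⟩
  obtain ⟨f, hf, hm⟩ := hc (fun b => c (w b))
  have hθ : ∀ q : ({y : EuclideanSpace ℝ (Fin (d + 1)) |
                  y (Fin.last d) = 0 ∧ ∃ x ∈ X, ∀ i : Fin d, y (Fin.castSucc i) = x i}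
                ∪ {z} : Set (EuclideanSpace ℝ (Fin (d + 1)))),
      ∃ o : Option X, (o.elim (ψ z) (fun a => WithLp.toLp 2 (a.1, 0)) :
        WithLp 2 (EuclideanSpace ℝ (Fin d) × ℝ)) = ψ q.1 := by
    rintro ⟨q, hq⟩
    rcases hq with ⟨hq0, x, hx, hqx⟩ | hq
    · refine ⟨some ⟨x, hx⟩, ?_⟩
      simp only [Option.elim_some, ψ, hq0]
      congr 2
      ext i
      exact (hqx i).symm
    · refine ⟨none, ?_⟩
      rw [Set.mem_singleton_iff] at hq
      subst hq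
      rfl
  choose θ hθ using hθ
  refine ⟨fun q => w (f (θ q)), ?_, fun q q' => hm _ _⟩
  apply Isometry.of_dist_eq
  intro q q'
  rw [dist_eq_norm, Subtype.dist_eq, dist_eq_norm]
  apply (sq_eq_sq₀ (norm_nonneg _) (norm_nonneg _)).1
  rw [← hw, hf]
  beta_reduce
  rw [hθ, hθ, hψ]

end Pool.Agent.P8H24.ER
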