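import Pool.Agent.P8H24.ERSimplex
import Pool.Agent.P8H24.ERExt

set_option autoImplicit false

/-! Main induction on the number of colours. -/

namespace Pool.Agent.P8H24.ER

theorem norm_toLp_sub {E F : Type} [NormedAddCommGroup E] [InnerProductSpace ℝ E]
    [NormedAddCommGroup F] [InnerProductSpace ℝ F] (a a' : E) (b b' : F) :
    ‖(WithLp.toLp 2 (a, b) : WithLp 2 (E × F)) - WithLp.toLp 2 (a', b')‖ ^ 2
      = ‖a - a'‖ ^ 2 + ‖b - b'‖ ^ 2 := by
  rw [← WithLp.toLp_sub, WithLp.prod_norm_sq_eq_of_L2]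
  rfl

theorem norm_single_sub {T : Type} [Fintype T] [DecidableEq T] (h : ℝ) (s t : T) :
    ‖(EuclideanSpace.single s h : EuclideanSpace ℝ T) - EuclideanSpace.single t h‖ ^ 2
      = if s = t then 0 else 2 * h ^ 2 := by
  by_cases hst : s = t
  · subst hst; simp
  · rw [if_neg hst, @norm_sub_sq ℝ]
    have h1 : inner ℝ (EuclideanSpace.single s h : EuclideanSpace ℝ T)
        (EuclideanSpace.single t h) = 0 := by
      rw [EuclideanSpace.inner_single_left]
      simp [hst]
    rw [h1]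
    simp only [PiLp.norm_single, Real.norm_eq_abs, sq_abs, map_zero]
    ring

/-- the space of the product configuration -/
abbrev VV (d n : ℕ) (T : Type) : Type :=
  WithLp 2 (EuclideanSpace ℝ (Fin d) × WithLp 2 (EuclideanSpace ℝ (Fin n) × EuclideanSpace ℝ T))

theorem main {A : Type} [Fintype A] {d : ℕ} (x : A → EuclideanSpace ℝ (Fin d))
    (p : EuclideanSpace ℝ (Fin d)) (h : ℝ) (hh : h ≠ 0)
    (hX : ∀ r, Arr r (fun a b => ‖x a - x b‖ ^ 2))
    (y : Option A → WithLp 2 (EuclideanSpace ℝ (Fin d) × ℝ))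
    (hy1 : ∀ a, y (some a) = WithLp.toLp 2 (x a, 0)) (hy2 : y none = WithLp.toLp 2 (p, h))
    (k : ℕ) : Arr k (fun u v => ‖y u - y v‖ ^ 2) := by
  classical
  induction k with
  | zero => exact Arr.zero_colours _
  | succ k ih =>
    obtain ⟨T, hT, DT, ⟨n, τ, hτ⟩, hTc⟩ := ih
    have hS := simplex τ (h ^ 2) (by positivity)
    obtain ⟨B, hB, DB, ⟨m, w, hw⟩, hc⟩ := Arr.prod hX hS (k + 1)
    let P : A × T → VV d n T :=
      fun u => WithLp.toLp 2 (x u.1, WithLp.toLp 2 (τ u.2, EuclideanSpace.single u.2 h))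
    let z : T → VV d n T :=
      fun t => WithLp.toLp 2 (p, WithLp.toLp 2 (τ t, 0))
    have hPP : ∀ u v, ‖P u - P v‖ ^ 2 = ‖x u.1 - x v.1‖ ^ 2 +
        (‖τ u.2 - τ v.2‖ ^ 2 + if u.2 = v.2 then 0 else 2 * h ^ 2) := by
      intro u v
      simp only [P]
      rw [norm_toLp_sub, norm_toLp_sub, norm_single_sub]
    have hPz : ∀ a t, ‖P (a, t) - z t‖ ^ 2 = ‖x a - p‖ ^ 2 + h ^ 2 := by
      intro a t
      simp only [P, z]
      rw [norm_toLp_sub, norm_toLp_sub]
      simp
    have hzz : ∀ s t, ‖z s - z t‖ ^ 2 = ‖τ s - τ t‖ ^ 2 := by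
      intro s t
      simp only [z]
      rw [norm_toLp_sub, norm_toLp_sub]
      simp
    let F : Type := {f : A × T → B // ∀ u v, DB (f u) (f v) = ‖P u - P v‖ ^ 2}
    have hF : Fintype F := Fintype.ofFinite _
    have hext : ∀ f : F, ∃ Φ : VV d n T → WithLp 2 (EuclideanSpace ℝ (Fin m) × VV d n T),
        (∀ x y, ‖Φ x - Φ y‖ = ‖x - y‖) ∧ ∀ u, Φ (P u) = WithLp.toLp 2 (w (f.1 u), 0) := by
      intro f
      apply ext_iso P (fun u => w (f.1 u))
      intro u v
      have := f.2 u v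
      rw [hw] at this
      exact ((sq_eq_sq₀ (norm_nonneg _) (norm_nonneg _)).1 this).symm
    choose Φ hΦ1 hΦ2 using hext
    let w' : B ⊕ (F × T) → WithLp 2 (EuclideanSpace ℝ (Fin m) × VV d n T) :=
      fun b => b.elim (fun b => WithLp.toLp 2 (w b, 0)) (fun q => Φ q.1 (z q.2))
    have hTne : Nonempty T := by
      by_contra hcon
      rw [not_nonempty_iff] at hcon
      obtain ⟨g, _⟩ := hTc (fun t => (hcon.false t).elim)
      exact hcon.false (g none)
    obtain ⟨t0⟩ := hTne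
    refine ⟨B ⊕ (F × T), inferInstance, _, EucD.of w', fun c => ?_⟩
    obtain ⟨f, hf, hm⟩ := hc (fun b => c (Sum.inl b))
    have hf' : ∀ u v, DB (f u) (f v) = ‖P u - P v‖ ^ 2 := fun u v => by rw [hf, hPP]
    let φ : F := ⟨f, hf'⟩
    rcases isEmpty_or_nonempty A with hA | ⟨⟨a0⟩⟩
    · refine ⟨fun _ => Sum.inr (φ, t0), fun u v => ?_, fun u v => rfl⟩
      have : u = v := Subsingleton.elim _ _
      subst this
      simp
    set c0 := c (Sum.inl (f (a0, t0))) with hc0
    have hcf : ∀ u, c (Sum.inl (f u)) = c0 := fun u => hm u (a0, t0)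
    by_cases hex : ∃ t, c (Sum.inr (φ, t)) = c0
    · obtain ⟨t, ht⟩ := hex
      refine ⟨fun o => o.elim (Sum.inr (φ, t)) (fun a => Sum.inl (f (a, t))), ?_, ?_⟩
      · have e1 : ∀ a b, ‖w (f (a, t)) - w (f (b, t))‖ ^ 2 = ‖x a - x b‖ ^ 2 := by
          intro a b
          rw [← hw, hf]
          simp
        have e2 : ∀ a, ‖(WithLp.toLp 2 (w (f (a, t)), 0) : WithLp 2 (EuclideanSpace ℝ (Fin m) × VV d n T)) - Φ φ (z t)‖ ^ 2
            = ‖x a - p‖ ^ 2 + h ^ 2 := by
          intro a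
          rw [← hPz a t, ← hΦ1 φ, hΦ2]
        rintro (_ | a) (_ | b)
        · simp
        · simp only [Option.elim_none, Option.elim_some, w', Sum.elim_inl, Sum.elim_inr, hy1, hy2]
          rw [norm_sub_rev, e2, norm_sub_rev, norm_toLp_sub]
          simp
        · simp only [Option.elim_none, Option.elim_some, w', Sum.elim_inl, Sum.elim_inr, hy1, hy2]
          rw [e2, norm_toLp_sub]
          simp
        · simp only [Option.elim_some, w', Sum.elim_inl, hy1]
          rw [norm_toLp_sub, norm_toLp_sub (x a) (x b) (0 : ℝ) 0, e1]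
          simp
      · have e : ∀ o : Option A, c (o.elim (Sum.inr (φ, t)) (fun a => Sum.inl (f (a, t)))) = c0 := by
          rintro (_ | a)
          · exact ht
          · exact hcf _
        intro u v
        rw [e, e]
    · push Not at hex
      have : ∀ t, ∃ q : Fin k, c0.succAbove q = c (Sum.inr (φ, t)) := fun t =>
        Fin.exists_succAbove_eq (hex t)
      choose cc hcc using this
      obtain ⟨g, hg1, hg2⟩ := hTc cc
      refine ⟨fun u => Sum.inr (φ, g u), fun u v => ?_, fun u v => ?_⟩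
      · simp only [w', Sum.elim_inr]
        rw [hΦ1, hzz, ← hτ, hg1]
      · rw [← hcc, ← hcc, hg2 u v]

end Pool.Agent.P8H24.ER
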