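import Pool.Agent.P8H24.ERBasic

set_option autoImplicit false

/-! Finite Ramsey theorem for `L`-subsets (same proof as in the starting file S08190) and its
consequence for shifts of a finite sequence. -/

namespace Pool.Agent.P8H24.ER

theorem endhom {r : ℕ} {L : ℕ}
    (ih : ∀ m : ℕ, ∃ M : ℕ, ∀ (V : Finset ℕ), M ≤ V.card → ∀ c : Finset ℕ → Fin r,
      ∃ H ⊆ V, H.card = m ∧ ∃ i, ∀ s ⊆ H, s.card = L → c s = i) :
    ∀ t : ℕ, ∃ M : ℕ, ∀ (V : Finset ℕ), M ≤ V.card → ∀ c : Finset ℕ → Fin r,
      ∃ W ⊆ V, W.card = t ∧ ∃ g : ℕ → Fin r,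
        ∀ s ⊆ W, s.card = L + 1 → ∃ x ∈ s, c s = g x := by
  intro t
  induction t with
  | zero =>
    refine ⟨0, fun V _ c => ⟨∅, by simp, by simp, fun _ => c ∅, ?_⟩⟩
    intro s hs hc
    have : s = ∅ := Finset.subset_empty.mp hs
    simp [this] at hc
  | succ t iht =>
    obtain ⟨M1, hM1⟩ := iht
    obtain ⟨M2, hM2⟩ := ih M1
    refine ⟨M2 + 1, fun V hV c => ?_⟩
    have hne : V.Nonempty := by
      rw [← Finset.card_pos]; omega
    obtain ⟨x, hx⟩ := hne
    obtain ⟨H, hHV, hHc, i, hi⟩ := hM2 (V.erase x)
      (by rw [Finset.card_erase_of_mem hx]; omega) (fun s => c (insert x s))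
    obtain ⟨W, hWH, hWc, g, hg⟩ := hM1 H (by omega) c
    have hxW : x ∉ W := fun h => by
      have := hHV (hWH h)
      simp at this
    refine ⟨insert x W, ?_, ?_, fun y => if y = x then i else g y, ?_⟩
    · intro y hy
      rcases Finset.mem_insert.mp hy with rfl | hy
      · exact hx
      · exact Finset.mem_of_mem_erase (hHV (hWH hy))
    · rw [Finset.card_insert_of_notMem hxW, hWc]
    · intro s hs hc
      by_cases hxs : x ∈ s
      · refine ⟨x, hxs, ?_⟩
        have h1 : s.erase x ⊆ H := by
          intro y hy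
          have hy1 := Finset.ne_of_mem_erase hy
          have hy2 := Finset.mem_of_mem_erase hy
          rcases Finset.mem_insert.mp (hs hy2) with h | h
          · exact absurd h hy1
          · exact hWH h
        have h2 : (s.erase x).card = L := by
          rw [Finset.card_erase_of_mem hxs]; omega
        have h3 := hi (s.erase x) h1 h2
        simp only [Finset.insert_erase hxs] at h3
        simp [h3]
      · have h1 : s ⊆ W := by
          intro y hy
          rcases Finset.mem_insert.mp (hs hy) with h | h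
          · subst h; exact absurd hy hxs
          · exact h
        obtain ⟨y, hy, hcy⟩ := hg s h1 hc
        refine ⟨y, hy, ?_⟩
        have : y ≠ x := fun h => hxs (h ▸ hy)
        simp [this, hcy]

theorem ramsey (r : ℕ) (L : ℕ) :
    ∀ m : ℕ, ∃ M : ℕ, ∀ (V : Finset ℕ), M ≤ V.card → ∀ c : Finset ℕ → Fin r,
      ∃ H ⊆ V, H.card = m ∧ ∃ i, ∀ s ⊆ H, s.card = L → c s = i := by
  induction L with
  | zero =>
    intro m
    refine ⟨m, fun V hV c => ?_⟩
    obtain ⟨H, hH, hc⟩ := Finset.exists_subset_card_eq hV
    refine ⟨H, hH, hc, c ∅, ?_⟩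
    intro s _ hs
    rw [Finset.card_eq_zero.mp hs]
  | succ L ih =>
    intro m
    obtain ⟨M, hM⟩ := endhom ih (r * m)
    refine ⟨M, fun V hV c => ?_⟩
    obtain ⟨W, hWV, hWc, g, hg⟩ := hM V hV c
    have hr : 0 < r := Fin.pos (c ∅)
    have : NeZero r := ⟨hr.ne'⟩
    obtain ⟨i, -, hi⟩ := Finset.exists_le_card_fiber_of_mul_le_card_of_maps_to
      (s := W) (t := (Finset.univ : Finset (Fin r))) (f := g) (n := m)
      (fun _ _ => Finset.mem_univ _) ⟨0, Finset.mem_univ _⟩ (by simp [hWc])
    obtain ⟨H, hH, hc⟩ := Finset.exists_subset_card_eq hi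
    refine ⟨H, fun x hx => hWV (Finset.mem_filter.mp (hH hx)).1, hc, i, ?_⟩
    intro s hs hsc
    obtain ⟨x, hx, hcx⟩ := hg s (fun y hy => (Finset.mem_filter.mp (hH (hs hy))).1) hsc
    rw [hcx]
    exact (Finset.mem_filter.mp (hH (hs hx))).2

/-- the values `val 0, val 1, ...` placed in increasing order on the set `s` -/
noncomputable def place (val : ℕ → ℝ) (s : Finset ℕ) (j : ℕ) : ℝ :=
  if j ∈ s then val ((s.filter (· < j)).card) else 0

/-- the sequence `val 0, ..., val (K-1)` shifted by `n` -/
noncomputable def shf (val : ℕ → ℝ) (K n j : ℕ) : ℝ :=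
  if n ≤ j ∧ j < n + K then val (j - n) else 0

theorem Arr.zero_colours {A : Type} (D : A → A → ℝ) : Arr 0 D := by
  refine ⟨Unit, inferInstance, fun _ _ => 0, ⟨0, fun _ => 0, by simp⟩, fun c => ?_⟩
  exact (c ()).elim0

theorem place_image {m : ℕ} (val : ℕ → ℝ) (h : ℕ → ℕ) (hh : ∀ i j, i < j → j < m → h i < h j)
    (K n : ℕ) (hK : n + K ≤ m) (i : ℕ) (hi : i < m) :
    place val ((Finset.Ico n (n + K)).image h) (h i) = shf val K n i := by
  classical
  have hinj : ∀ i j, i < m → j < m → h i = h j → i = j := by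
    intro i j hi hj hij
    rcases lt_trichotomy i j with h1 | h1 | h1
    · exact absurd hij (hh i j h1 hj).ne
    · exact h1
    · exact absurd hij (hh j i h1 hi).ne'
  have hmem : h i ∈ (Finset.Ico n (n + K)).image h ↔ (n ≤ i ∧ i < n + K) := by
    rw [Finset.mem_image]
    constructor
    · rintro ⟨j, hj, hji⟩
      rw [Finset.mem_Ico] at hj
      have := hinj j i (by omega) hi hji
      omega
    · intro h1
      exact ⟨i, Finset.mem_Ico.2 h1, rfl⟩
  unfold place shf
  by_cases h1 : n ≤ i ∧ i < n + K
  · rw [if_pos (hmem.2 h1), if_pos h1]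
    congr 1
    have h2 : ((Finset.Ico n (n + K)).image h).filter (· < h i) = (Finset.Ico n i).image h := by
      ext x
      simp only [Finset.mem_filter, Finset.mem_image, Finset.mem_Ico]
      constructor
      · rintro ⟨⟨j, hj, rfl⟩, hlt⟩
        refine ⟨j, ⟨hj.1, ?_⟩, rfl⟩
        by_contra hcon
        rcases Nat.lt_or_ge i j with h3 | h3
        · have := hh i j h3 (by omega)
          omega
        · have : j = i := by omega
          subst this
          omega
      · rintro ⟨j, hj, rfl⟩
        exact ⟨⟨j, ⟨hj.1, by omega⟩, rfl⟩, hh j i hj.2 hi⟩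
    rw [h2, Finset.card_image_of_injOn, Nat.card_Ico]
    intro a ha b hb hab
    simp only [Finset.coe_Ico, Set.mem_Ico] at ha hb
    exact hinj a b (by omega) (by omega) hab
  · rw [if_neg (fun h2 => h1 (hmem.1 h2)), if_neg h1]

theorem Arr.shift {A : Type} (val : ℕ → ℝ) (K N : ℕ) (n : A → ℕ) (hn : ∀ a, n a ≤ N) (r : ℕ) :
    Arr r (fun a a' : A =>
      ∑ j ∈ Finset.range (N + K), (shf val K (n a) j - shf val K (n a') j) ^ 2) := by
  classical
  rcases Nat.eq_zero_or_pos r with rfl | hr
  · exact Arr.zero_colours _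
  obtain ⟨M, hM⟩ := ramsey r K (N + K)
  let B : Type := {s : Finset ℕ // s ∈ Finset.powersetCard K (Finset.range M)}
  have hB : Fintype B :=
    inferInstanceAs (Fintype {s : Finset ℕ // s ∈ Finset.powersetCard K (Finset.range M)})
  have hE := EucD.of (B := B) (E := EuclideanSpace ℝ (Fin M))
    (fun s => WithLp.toLp 2 (fun j : Fin M => place val s.1 j.1))
  refine ⟨B, hB, _, hE, fun c => ?_⟩
  obtain ⟨H, hHV, hHc, i0, hi0⟩ := hM (Finset.range M) (by simp)
    (fun s => if h : s ∈ Finset.powersetCard K (Finset.range M) then c ⟨s, h⟩ else ⟨0, hr⟩)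
  let h : ℕ → ℕ := fun i => if hi : i < N + K then H.orderEmbOfFin hHc ⟨i, hi⟩ else 0
  have hh : ∀ i j, i < j → j < N + K → h i < h j := by
    intro i j hij hj
    simp only [h, dif_pos hj, dif_pos (hij.trans hj)]
    exact (H.orderEmbOfFin hHc).strictMono (by simpa using hij)
  have hinj : ∀ i j, i < N + K → j < N + K → h i = h j → i = j := by
    intro i j hi hj hij
    rcases lt_trichotomy i j with h1 | h1 | h1
    · exact absurd hij (hh i j h1 hj).ne
    · exact h1
    · exact absurd hij (hh j i h1 hi).ne'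
  have hH : ∀ i, i < N + K → h i ∈ H := by
    intro i hi
    simp only [h, dif_pos hi]
    exact H.orderEmbOfFin_mem hHc _
  have himg : (Finset.range (N + K)).image h = H := by
    apply Finset.eq_of_subset_of_card_le
    · intro x hx
      obtain ⟨i, hi, rfl⟩ := Finset.mem_image.1 hx
      exact hH i (Finset.mem_range.1 hi)
    · rw [Finset.card_image_of_injOn, hHc, Finset.card_range]
      intro a ha b hb hab
      simp only [Finset.coe_range, Set.mem_Iio] at ha hb
      exact hinj a b ha hb hab
  have hs : ∀ a, (Finset.Ico (n a) (n a + K)).image h ∈ Finset.powersetCard K (Finset.range M) := by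
    intro a
    rw [Finset.mem_powersetCard]
    constructor
    · intro x hx
      obtain ⟨i, hi, rfl⟩ := Finset.mem_image.1 hx
      rw [Finset.mem_Ico] at hi
      exact hHV (hH i (by have := hn a; omega))
    · rw [Finset.card_image_of_injOn, Nat.card_Ico]
      · omega
      · intro x hx y hy hxy
        simp only [Finset.coe_Ico, Set.mem_Ico] at hx hy
        have := hn a
        exact hinj x y (by omega) (by omega) hxy
  refine ⟨fun a => ⟨_, hs a⟩, fun a a' => ?_, fun a a' => ?_⟩
  · simp only
    rw [← WithLp.toLp_sub, EuclideanSpace.norm_sq_eq]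
    simp only [Pi.sub_apply, Real.norm_eq_abs, sq_abs]
    rw [Fin.sum_univ_eq_sum_range
      (fun j => (place val ((Finset.Ico (n a) (n a + K)).image h) j
        - place val ((Finset.Ico (n a') (n a' + K)).image h) j) ^ 2) M]
    rw [← Finset.sum_subset hHV]
    · rw [← himg, Finset.sum_image]
      · apply Finset.sum_congr rfl
        intro i hi
        rw [Finset.mem_range] at hi
        rw [place_image val h hh K (n a) (by have := hn a; omega) i hi,
          place_image val h hh K (n a') (by have := hn a'; omega) i hi]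
      · intro x hx y hy hxy
        simp only [Finset.coe_range, Set.mem_Iio] at hx hy
        exact hinj x y hx hy hxy
    · intro x _ hx
      have h0 : ∀ a, place val ((Finset.Ico (n a) (n a + K)).image h) x = 0 := by
        intro a
        unfold place
        rw [if_neg]
        intro hcon
        obtain ⟨i, hi, rfl⟩ := Finset.mem_image.1 hcon
        rw [Finset.mem_Ico] at hi
        exact hx (hH i (by have := hn a; omega))
      rw [h0, h0]
      simp
  · have h1 : ∀ a, c ⟨_, hs a⟩ = i0 := by
      intro a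
      have h2 := hi0 ((Finset.Ico (n a) (n a + K)).image h) (by
        intro x hx
        obtain ⟨i, hi, rfl⟩ := Finset.mem_image.1 hx
        rw [Finset.mem_Ico] at hi
        exact hH i (by have := hn a; omega)) (Finset.mem_powersetCard.1 (hs a)).2
      rw [dif_pos (hs a)] at h2
      exact h2
    rw [h1, h1]

end Pool.Agent.P8H24.ER
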