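import Pool.Agent.P8H24.ERTent

set_option autoImplicit false

/-! The simplices `(t, -h e_t)` are Ramsey. -/

namespace Pool.Agent.P8H24.ER

/-- distance functions close to a constant `2 q` are sub-boxes, hence Ramsey -/
theorem corr {A : Type} [Fintype A] (F : A → A → ℝ) (q η : ℝ) (hη : 0 ≤ η)
    (hq : 2 * (Fintype.card A : ℝ) * η ≤ q) (h0 : ∀ a, F a a = 0) (hs : ∀ a b, F a b = F b a)
    (hF : ∀ a b, a ≠ b → |F a b - 2 * q| ≤ η) (r : ℕ) : Arr r F := by
  classical
  let γ : A → A → ℝ := fun u v => if u = v then 0 else (η + (2 * q - F u v) / 2) / 2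
  have hγ0 : ∀ u v, 0 ≤ γ u v := by
    intro u v
    simp only [γ]
    split_ifs with h
    · exact le_rfl
    · have := abs_le.1 (hF u v h)
      linarith
  have hγ1 : ∀ u v, 2 * γ u v ≤ 2 * η := by
    intro u v
    simp only [γ]
    split_ifs with h
    · linarith
    · have := abs_le.1 (hF u v h)
      linarith
  have hγs : ∀ u v, γ u v = γ v u := by
    intro u v
    simp only [γ]
    by_cases h : u = v
    · simp [h]
    · rw [if_neg h, if_neg (Ne.symm h), hs u v]
  have hγd : ∀ u, γ u u = 0 := fun u => by simp [γ]
  let α : A → ℝ := fun u => q + η - 2 * ∑ v, γ u v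
  have hα : ∀ u, 0 ≤ α u := by
    intro u
    have : 2 * ∑ v, γ u v ≤ 2 * (Fintype.card A : ℝ) * η := by
      rw [Finset.mul_sum]
      calc _ ≤ ∑ _v : A, 2 * η := Finset.sum_le_sum (fun v _ => hγ1 u v)
        _ = _ := by rw [Finset.sum_const, Finset.card_univ, nsmul_eq_mul]; ring
    simp only [α]
    linarith
  have hA1 := Arr.add (A := A)
    (fun r => Arr.sum (Finset.univ : Finset A) (D := fun u a b => if (a = u ↔ b = u) then 0 else α u)
      (fun u _ r => Arr.two (fun a => a = u) (hα u) r) r)
    (fun r => Arr.sum (Finset.univ : Finset (A × A))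
      (D := fun w a b => if ((a = w.1 ∨ a = w.2) ↔ (b = w.1 ∨ b = w.2)) then 0 else γ w.1 w.2)
      (fun w _ r => Arr.two (fun a => a = w.1 ∨ a = w.2) (hγ0 w.1 w.2) r) r) r
  convert hA1 using 3 with a b
  by_cases hab : a = b
  · subst hab
    simp [h0]
  · have k1 : ∀ u, (if (a = u ↔ b = u) then 0 else α u)
        = (if a = u then α u else 0) + (if b = u then α u else 0) := by
      intro u
      by_cases h1 : a = u <;> by_cases h2 : b = u
      · exact absurd (h1.trans h2.symm) hab
      · simp [h1, h2]
      · simp [h1, h2]
      · simp [h1, h2]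
    have k2 : ∀ u v, (if ((a = u ∨ a = v) ↔ (b = u ∨ b = v)) then 0 else γ u v)
        = ((if a = u then γ u v else 0) + (if a = v then γ u v else 0)
          + (if b = u then γ u v else 0) + (if b = v then γ u v else 0))
          - 2 * ((if a = u then (if b = v then γ u v else 0) else 0)
            + (if a = v then (if b = u then γ u v else 0) else 0)) := by
      intro u v
      by_cases huv : u = v
      · subst huv
        simp [hγd]
      · by_cases h1 : a = u
        · subst h1
          have h2 : ¬ (b = a) := fun h => hab h.symm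
          by_cases h3 : b = v
          · subst h3
            simp [h2, hab]
            ring
          · simp [h2, h3, huv]
        · by_cases h2 : a = v
          · subst h2
            have h3 : ¬ (b = a) := fun h => hab h.symm
            by_cases h4 : b = u
            · subst h4
              simp [h3, h1]
              ring
            · simp [h3, h4, h1]
          · by_cases h3 : b = u
            · subst h3
              simp [h1, h2, huv]
            · simp [h1, h2, h3]
    simp only [k1, k2, Fintype.sum_prod_type]
    simp only [Finset.sum_sub_distrib, Finset.sum_add_distrib, ← Finset.mul_sum]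
    simp only [Finset.sum_ite_eq, Finset.mem_univ, if_true]
    have e1 : ∀ a : A, ∑ x, ∑ y, (if a = x then γ x y else 0) = ∑ y, γ a y := by
      intro a
      rw [Finset.sum_comm]
      simp
    have e2 : ∑ x, ∑ y, (if a = x then if b = y then γ x y else 0 else 0) = γ a b := by
      rw [Finset.sum_comm]
      simp
    have e3 : ∀ a : A, ∑ x, γ x a = ∑ x, γ a x := fun a =>
      Finset.sum_congr rfl (fun x _ => hγs x a)
    have e4 : γ a b = (η + (2 * q - F a b) / 2) / 2 := by
      simp only [γ]
      rw [if_neg hab]
    rw [e1, e1, e2, e3, e3, hγs b a, e4]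
    simp only [α]
    ring

/-- the simplex with squared distances `|τ t - τ t'|^2 + 2 q` is Ramsey -/
theorem simplex {A : Type} [Fintype A] [DecidableEq A] {m : ℕ}
    (τ : A → EuclideanSpace ℝ (Fin m)) (q : ℝ) (hq : 0 < q) (r : ℕ) :
    Arr r (fun a b => ‖τ a - τ b‖ ^ 2 + if a = b then 0 else 2 * q) := by
  have hη : 0 < q / (2 * (Fintype.card A + 1)) := by positivity
  obtain ⟨D, hD1, hD2, hD3, hD4⟩ := approx τ _ hη
  have hc := corr (fun a b => (‖τ a - τ b‖ ^ 2 + if a = b then 0 else 2 * q) - D a b) q _ hη.le
    (by
      rw [mul_div_assoc', div_le_iff₀ (by positivity)]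
      nlinarith)
    (fun a => by simp [hD2])
    (fun a b => by
      simp only [hD3 a b, norm_sub_rev (τ a) (τ b), eq_comm (a := a) (b := b)])
    (fun a b hab => by
      simp only [if_neg hab]
      have := hD4 a b
      rw [abs_sub_comm] at this
      convert this using 2
      ring)
  convert Arr.add hD1 hc r using 3 with a b
  ring

end Pool.Agent.P8H24.ER
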