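import Pool.Agent.P8H24.ERShift

set_option autoImplicit false

/-! Approximating arbitrary finite configurations by Ramsey configurations (shifted tents). -/

namespace Pool.Agent.P8H24.ER

/-- integer tent of height `L` starting at `n` -/
def tent (L n j : ℕ) : ℕ := min (j - n) (2 * L - (j - n))

theorem shf_tent (c : ℝ) (L n j : ℕ) :
    shf (fun k => c * ((min k (2 * L - k) : ℕ) : ℝ)) (2 * L + 1) n j = c * (tent L n j : ℝ) := by
  unfold shf tent
  by_cases h : n ≤ j ∧ j < n + (2 * L + 1)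
  · rw [if_pos h]
  · rw [if_neg h]
    have : min (j - n) (2 * L - (j - n)) = 0 := by omega
    rw [this]; simp

theorem tent_sum (L N n δ : ℕ) (hδ : 1 ≤ δ) (hL : n + δ ≤ N) (hNL : N ≤ L) :
    |∑ j ∈ Finset.range (N + (2 * L + 1)), ((tent L n j : ℝ) - (tent L (n + δ) j : ℝ)) ^ 2
      - 2 * L * (δ : ℝ) ^ 2| ≤ 3 * (N : ℝ) ^ 3 := by
  have hdN : (δ : ℝ) ≤ N := by exact_mod_cast (by omega : δ ≤ N)
  have hd1 : (1 : ℝ) ≤ δ := by exact_mod_cast hδ
  have hub : ∀ j, ((tent L n j : ℝ) - (tent L (n + δ) j : ℝ)) ^ 2 ≤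
      if j ∈ Finset.Ico n (n + δ + 2 * L + 1) then (δ : ℝ) ^ 2 else 0 := by
    intro j
    split_ifs with h
    · apply sq_le_sq'
      · have : tent L (n + δ) j ≤ tent L n j + δ := by unfold tent; omega
        have h2 : (tent L (n + δ) j : ℝ) ≤ tent L n j + δ := by exact_mod_cast this
        linarith
      · have : tent L n j ≤ tent L (n + δ) j + δ := by unfold tent; omega
        have h2 : (tent L n j : ℝ) ≤ tent L (n + δ) j + δ := by exact_mod_cast this
        linarith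
    · rw [Finset.mem_Ico] at h
      have h1 : tent L n j = 0 := by unfold tent; omega
      have h2 : tent L (n + δ) j = 0 := by unfold tent; omega
      rw [h1, h2]; simp
  have hu : ∑ j ∈ Finset.range (N + (2 * L + 1)), ((tent L n j : ℝ) - (tent L (n + δ) j : ℝ)) ^ 2
      ≤ (δ : ℝ) ^ 2 * (2 * L + 1 + δ) := by
    calc _ ≤ ∑ j ∈ Finset.range (N + (2 * L + 1)),
          (if j ∈ Finset.Ico n (n + δ + 2 * L + 1) then (δ : ℝ) ^ 2 else 0) :=
          Finset.sum_le_sum (fun j _ => hub j)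
      _ = ∑ j ∈ (Finset.range (N + (2 * L + 1))).filter (· ∈ Finset.Ico n (n + δ + 2 * L + 1)),
          (δ : ℝ) ^ 2 := by rw [Finset.sum_filter]
      _ ≤ ∑ j ∈ Finset.Ico n (n + δ + 2 * L + 1), (δ : ℝ) ^ 2 := by
          apply Finset.sum_le_sum_of_subset_of_nonneg
          · intro j hj
            exact (Finset.mem_filter.1 hj).2
          · intros; positivity
      _ = (δ : ℝ) ^ 2 * (2 * L + 1 + δ) := by
          rw [Finset.sum_const, Nat.card_Ico, nsmul_eq_mul]
          have : n + δ + 2 * L + 1 - n = 2 * L + 1 + δ := by omega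
          rw [this]; push_cast; ring
  have hl : (δ : ℝ) ^ 2 * (2 * L - 2 * δ) ≤
      ∑ j ∈ Finset.range (N + (2 * L + 1)), ((tent L n j : ℝ) - (tent L (n + δ) j : ℝ)) ^ 2 := by
    have hdisj : Disjoint (Finset.Ico (n + δ) (n + L)) (Finset.Ico (n + δ + L) (n + 2 * L)) := by
      rw [Finset.disjoint_left]
      intro j hj hj2
      rw [Finset.mem_Ico] at hj hj2
      omega
    have hdl : δ ≤ L := by omega
    calc (δ : ℝ) ^ 2 * (2 * L - 2 * δ) =
        ∑ j ∈ (Finset.Ico (n + δ) (n + L)) ∪ (Finset.Ico (n + δ + L) (n + 2 * L)), (δ : ℝ) ^ 2 := by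
          rw [Finset.sum_const, Finset.card_union_of_disjoint hdisj, Nat.card_Ico, Nat.card_Ico,
            nsmul_eq_mul]
          have h1 : n + L - (n + δ) = L - δ := by omega
          have h2 : n + 2 * L - (n + δ + L) = L - δ := by omega
          rw [h1, h2]; push_cast [Nat.cast_sub hdl]; ring
      _ = ∑ j ∈ (Finset.Ico (n + δ) (n + L)) ∪ (Finset.Ico (n + δ + L) (n + 2 * L)),
          ((tent L n j : ℝ) - (tent L (n + δ) j : ℝ)) ^ 2 := by
          apply Finset.sum_congr rfl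
          intro j hj
          rw [Finset.mem_union, Finset.mem_Ico, Finset.mem_Ico] at hj
          rcases hj with hj | hj
          · have : tent L n j = tent L (n + δ) j + δ := by unfold tent; omega
            rw [this]; push_cast; ring
          · have : tent L (n + δ) j = tent L n j + δ := by unfold tent; omega
            rw [this]; push_cast; ring
      _ ≤ _ := by
          apply Finset.sum_le_sum_of_subset_of_nonneg
          · intro j hj
            rw [Finset.mem_union, Finset.mem_Ico, Finset.mem_Ico] at hj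
            rw [Finset.mem_range]
            omega
          · intros; positivity
  have h3 : (δ : ℝ) ^ 2 * (1 + δ) ≤ 3 * (N : ℝ) ^ 3 := by
    have h4 : (δ : ℝ) ^ 3 ≤ (N : ℝ) ^ 3 := by gcongr
    nlinarith [sq_nonneg (δ : ℝ), mul_nonneg (sq_nonneg (δ : ℝ)) (sub_nonneg.2 hd1)]
  have h5 : (δ : ℝ) ^ 2 * (2 * δ) ≤ 3 * (N : ℝ) ^ 3 := by
    have h4 : (δ : ℝ) ^ 3 ≤ (N : ℝ) ^ 3 := by gcongr
    nlinarith [pow_nonneg (by linarith : (0 : ℝ) ≤ N) 3]
  rw [abs_le]
  constructor
  · nlinarith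
  · nlinarith

theorem tent_sum' (L N n n' : ℕ) (hn : n ≤ N) (hn' : n' ≤ N) (hNL : N ≤ L) :
    |∑ j ∈ Finset.range (N + (2 * L + 1)), ((tent L n j : ℝ) - (tent L n' j : ℝ)) ^ 2
      - 2 * L * ((n : ℝ) - n') ^ 2| ≤ 3 * (N : ℝ) ^ 3 := by
  rcases lt_trichotomy n n' with h | h | h
  · obtain ⟨δ, rfl⟩ := Nat.exists_eq_add_of_lt h
    have := tent_sum L N n (δ + 1) (by omega) (by omega) hNL
    have e : n + δ + 1 = n + (δ + 1) := by ring
    rw [e]
    convert this using 3
    push_cast; ring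
  · subst h
    simp only [sub_self, ne_eq, OfNat.ofNat_ne_zero, not_false_eq_true, zero_pow,
      Finset.sum_const_zero, mul_zero, abs_zero]
    positivity
  · obtain ⟨δ, rfl⟩ := Nat.exists_eq_add_of_lt h
    have := tent_sum L N n' (δ + 1) (by omega) (by omega) hNL
    have e : n' + δ + 1 = n' + (δ + 1) := by ring
    rw [e]
    convert this using 3
    · apply Finset.sum_congr rfl
      intro j _
      ring
    · push_cast; ring

/-- integer configurations on a line, scaled by `ε`, are approximated by Ramsey configurations -/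
theorem approx_int {A : Type} [Fintype A] (n : A → ℕ) (ε η : ℝ) (hη : 0 < η) :
    ∃ D : A → A → ℝ, (∀ r, Arr r D) ∧ (∀ a, D a a = 0) ∧ (∀ a b, D a b = D b a) ∧
      ∀ a b, |D a b - ε ^ 2 * ((n a : ℝ) - n b) ^ 2| ≤ η := by
  classical
  set N : ℕ := Finset.univ.sup n with hN
  have hn : ∀ a, n a ≤ N := fun a => Finset.le_sup (Finset.mem_univ a)
  obtain ⟨L0, hL0⟩ := exists_nat_gt (ε ^ 2 * (3 * (N : ℝ) ^ 3) / (2 * η))
  set L : ℕ := L0 + N + 1 with hL
  have hLpos : (0 : ℝ) < L := by rw [hL]; push_cast; positivity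
  have hLL : ε ^ 2 * (3 * (N : ℝ) ^ 3) / (2 * η) ≤ L := by
    rw [hL]; push_cast
    have : (0 : ℝ) ≤ N := Nat.cast_nonneg N
    linarith
  set c : ℝ := √(ε ^ 2 / (2 * L)) with hc
  have hc2 : c ^ 2 = ε ^ 2 / (2 * L) := Real.sq_sqrt (by positivity)
  have hD := fun r => Arr.shift (fun k => c * ((min k (2 * L - k) : ℕ) : ℝ)) (2 * L + 1) N n hn r
  simp only [shf_tent] at hD
  refine ⟨_, hD, fun a => by simp, fun a b => ?_, fun a b => ?_⟩
  · apply Finset.sum_congr rfl
    intro j _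
    ring
  · have h1 : ∑ j ∈ Finset.range (N + (2 * L + 1)), (c * (tent L (n a) j : ℝ) - c * tent L (n b) j) ^ 2
        = c ^ 2 * ∑ j ∈ Finset.range (N + (2 * L + 1)), ((tent L (n a) j : ℝ) - tent L (n b) j) ^ 2 := by
      rw [Finset.mul_sum]
      apply Finset.sum_congr rfl
      intro j _
      ring
    rw [h1]
    have h2 := tent_sum' L N (n a) (n b) (hn a) (hn b) (by omega)
    have h3 : c ^ 2 * ∑ j ∈ Finset.range (N + (2 * L + 1)), ((tent L (n a) j : ℝ) - tent L (n b) j) ^ 2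
        - ε ^ 2 * ((n a : ℝ) - n b) ^ 2
        = c ^ 2 * (∑ j ∈ Finset.range (N + (2 * L + 1)), ((tent L (n a) j : ℝ) - tent L (n b) j) ^ 2
          - 2 * L * ((n a : ℝ) - n b) ^ 2) := by
      rw [hc2]
      field_simp
    rw [h3, abs_mul, abs_of_nonneg (by positivity : 0 ≤ c ^ 2)]
    calc c ^ 2 * _ ≤ c ^ 2 * (3 * (N : ℝ) ^ 3) := by gcongr
      _ = ε ^ 2 * (3 * (N : ℝ) ^ 3) / (2 * L) := by rw [hc2]; ring
      _ ≤ η := by
        rw [div_le_iff₀ (by positivity)] at hLL ⊢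
        linarith

theorem approx_line {A : Type} [Fintype A] (x : A → ℝ) (η : ℝ) (hη : 0 < η) :
    ∃ D : A → A → ℝ, (∀ r, Arr r D) ∧ (∀ a, D a a = 0) ∧ (∀ a b, D a b = D b a) ∧
      ∀ a b, |D a b - (x a - x b) ^ 2| ≤ η := by
  classical
  obtain ⟨R, hR⟩ : ∃ R : ℝ, ∀ a, |x a| ≤ R :=
    ⟨∑ a, |x a|, fun a => Finset.single_le_sum (f := fun a => |x a|)
      (fun _ _ => abs_nonneg _) (Finset.mem_univ a)⟩
  rcases isEmpty_or_nonempty A with hA | ⟨⟨a0⟩⟩
  · exact ⟨fun _ _ => 0, fun r => Arr.zero r, fun _ => rfl, fun _ _ => rfl,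
      fun a => (hA.false a).elim⟩
  have hR0 : 0 ≤ R := (abs_nonneg _).trans (hR a0)
  set ε : ℝ := min 1 (η / (2 * (4 * R + 1))) with hε
  have hε0 : 0 < ε := lt_min one_pos (by positivity)
  have hε1 : ε ≤ 1 := min_le_left _ _
  have hε2 : ε * (4 * R + 1) ≤ η / 2 := by
    have h1 : ε ≤ η / (2 * (4 * R + 1)) := min_le_right _ _
    rw [le_div_iff₀ (by positivity)] at h1
    linarith
  let n : A → ℕ := fun a => ⌊(x a + R) / ε⌋₊
  have hn : ∀ a, ε * n a ≤ x a + R ∧ x a + R < ε * n a + ε := by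
    intro a
    have h0 : 0 ≤ (x a + R) / ε := by
      have := (abs_le.1 (hR a)).1
      apply div_nonneg _ hε0.le
      linarith
    have h1 := Nat.floor_le h0
    have h2 := Nat.lt_floor_add_one ((x a + R) / ε)
    rw [le_div_iff₀ hε0] at h1
    rw [div_lt_iff₀ hε0] at h2
    constructor
    · rw [mul_comm]; exact h1
    · have : (((⌊(x a + R) / ε⌋₊ : ℕ) : ℝ) + 1) * ε = ε * (n a : ℝ) + ε := by
        simp only [n]; ring
      rw [← this]; exact h2
  obtain ⟨D, hD1, hD2, hD3, hD4⟩ := approx_int n ε (η / 2) (by positivity)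
  refine ⟨D, hD1, hD2, hD3, fun a b => ?_⟩
  have h1 := hD4 a b
  have h2 := hn a
  have h3 := hn b
  have hxa := abs_le.1 (hR a)
  have hxb := abs_le.1 (hR b)
  set y : ℝ := (ε * n a - ε * n b) - (x a - x b) with hy
  have hyb : |y| ≤ ε := by
    rw [abs_le]; constructor <;> linarith
  have h4 : ε ^ 2 * ((n a : ℝ) - n b) ^ 2 - (x a - x b) ^ 2 = (2 * (x a - x b) + y) * y := by
    rw [hy]; ring
  have h5 : |2 * (x a - x b) + y| ≤ 4 * R + 1 := by
    rw [abs_le] at hyb ⊢
    constructor <;> linarith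
  have h6 : |ε ^ 2 * ((n a : ℝ) - n b) ^ 2 - (x a - x b) ^ 2| ≤ η / 2 := by
    rw [h4, abs_mul]
    calc _ ≤ (4 * R + 1) * ε := by gcongr
      _ ≤ η / 2 := by linarith
  have h7 : D a b - (x a - x b) ^ 2 = (D a b - ε ^ 2 * ((n a : ℝ) - n b) ^ 2)
      + (ε ^ 2 * ((n a : ℝ) - n b) ^ 2 - (x a - x b) ^ 2) := by ring
  rw [h7]
  calc _ ≤ _ := abs_add_le _ _
    _ ≤ η / 2 + η / 2 := add_le_add h1 h6
    _ = η := by ring

/-- every finite Euclidean configuration is approximated by Ramsey configurations -/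
theorem approx {A : Type} [Fintype A] {m : ℕ} (τ : A → EuclideanSpace ℝ (Fin m)) (η : ℝ)
    (hη : 0 < η) :
    ∃ D : A → A → ℝ, (∀ r, Arr r D) ∧ (∀ a, D a a = 0) ∧ (∀ a b, D a b = D b a) ∧
      ∀ a b, |D a b - ‖τ a - τ b‖ ^ 2| ≤ η := by
  classical
  have h := fun i : Fin m => approx_line (fun a => τ a i) (η / (m + 1)) (by positivity)
  choose D hD1 hD2 hD3 hD4 using h
  refine ⟨fun a b => ∑ i, D i a b, fun r => Arr.sum _ (fun i _ => hD1 i) r, fun a => ?_,
    fun a b => ?_, fun a b => ?_⟩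
  · simp [hD2]
  · exact Finset.sum_congr rfl (fun i _ => hD3 i a b)
  · rw [EuclideanSpace.norm_sq_eq, ← Finset.sum_sub_distrib]
    calc _ ≤ ∑ i, |D i a b - ‖(τ a - τ b) i‖ ^ 2| := Finset.abs_sum_le_sum_abs _ _
      _ ≤ ∑ _i : Fin m, η / (m + 1) := by
          apply Finset.sum_le_sum
          intro i _
          have := hD4 i a b
          simpa [sq_abs] using this
      _ ≤ η := by
          rw [Finset.sum_const, Finset.card_univ, Fintype.card_fin, nsmul_eq_mul]
          rw [mul_div_assoc', div_le_iff₀ (by positivity)]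
          nlinarith

end Pool.Agent.P8H24.ER
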